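import Pool.Agent.Work.MP_ae2f77_co.Run

set_option autoImplicit false

open Filter

namespace Pool.Agent.Work.MP_ae2f77_co

attribute [local instance] Ultrafilter.add Ultrafilter.addSemigroup

theorem no_bad (c : ℕ → Bool) : ¬ Bad c := by
  intro hc
  obtain ⟨P, hP, hPP, hgood⟩ := exists_good
  -- the limit colouring
  have hg : ∀ v : ℤ, ∃ κ : Bool, ∀ᶠ n in (P : Filter ℤ), half c (n + v) = κ :=
    fun v => exists_const P _
  choose g hα using hg
  have hγ0 : ∀ v : ℤ, ∀ᶠ n in (P : Filter ℤ), ∀ᶠ n' in (P : Filter ℤ),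
      half c (n + n' + v) = g v := by
    intro v
    have h1 := hα v
    rw [← hPP, Ultrafilter.eventually_add] at h1
    exact h1
  have hγ : ∀ v : ℤ, ∀ᶠ n in (P : Filter ℤ), g (n + v) = g v := by
    intro v
    filter_upwards [hγ0 v] with n hn
    obtain ⟨n', h1, h2⟩ := (hn.and (hα (n + v))).exists
    rw [← h1, ← h2]
    congr 1
    ring
  have hβ : ∀ v : ℤ, ∀ᶠ n in (P : Filter ℤ), half c (2 * n + v) = !(g v) := by
    intro v
    have h1 := (anti_half hc (!(g v)) P hP v).mpr (by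
      filter_upwards [hγ0 v] with n hn
      filter_upwards [hn] with n' hn'
      show half c (n + n' + v) = !(!(g v))
      rw [Bool.not_not]; exact hn')
    exact h1
  -- no opposite return at both scales
  have hP3 : ∃ W : ℕ, ∀ k : ℤ, 0 ≤ k →
      ¬ ∀ y : ℤ, |y| ≤ W → g (k + y) = !(g y) ∧ g (2 * k + y) = !(g y) := by
    by_contra hcon
    have h0 : ∀ W : ℕ, ∃ k : ℤ, 0 ≤ k ∧
        ∀ y : ℤ, |y| ≤ W → g (k + y) = !(g y) ∧ g (2 * k + y) = !(g y) := by
      intro W
      by_contra h1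
      apply hcon
      refine ⟨W, fun k hk h2 => h1 ⟨k, hk, h2⟩⟩
    choose k hk0 hk using h0
    have hs : ∀ y : ℤ, ∀ᶠ x in (((hyperfilter ℕ).map k : Ultrafilter ℤ) : Filter ℤ),
        g (x + y) = !(g y) ∧ g (2 * x + y) = !(g y) := by
      intro y
      rw [Ultrafilter.coe_map, eventually_map]
      filter_upwards [hyper_gt |y|] with W hW
      exact hk W y hW.le
    have hs0 : ∀ᶠ x in (((hyperfilter ℕ).map k : Ultrafilter ℤ) : Filter ℤ), 0 ≤ x := by
      rw [Ultrafilter.coe_map, eventually_map]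
      exact Eventually.of_forall hk0
    have hU : (hyperfilter ℕ).map k + P ∈ Sinf := by
      intro N
      rw [Ultrafilter.eventually_add]
      filter_upwards [hs0] with m hm
      filter_upwards [hP N] with n hn
      linarith
    refine lawU hc hU 0 (g 0) ?_ ?_
    · rw [Ultrafilter.eventually_add]
      filter_upwards [hs 0] with x hx
      filter_upwards [hβ (2 * x)] with n hn
      have h1 : 2 * (x + n) + 0 = 2 * n + 2 * x := by ring
      rw [h1, hn]
      have h2 := hx.2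
      rw [add_zero] at h2
      rw [h2, Bool.not_not]
    · rw [Ultrafilter.eventually_add]
      filter_upwards [hs 0] with x hx
      filter_upwards [hγ x] with n hn
      rw [Ultrafilter.eventually_add]
      filter_upwards [hs (x + n)] with x' hx'
      filter_upwards [hα (x' + (x + n))] with n' hn'
      have h1 : x + n + (x' + n') + 0 = n' + (x' + (x + n)) := by ring
      rw [h1, hn', hx'.1]
      have h2 := hx.1
      rw [add_zero] at h2
      rw [add_comm x n, hn, h2, Bool.not_not]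
  obtain ⟨W, hW⟩ := hP3
  -- syndetic return
  have hP2 : ∃ G : ℕ, ∀ k : ℤ, 0 ≤ k → ∃ j : ℤ, 0 ≤ j ∧ j < G ∧
      ∀ y : ℤ, |y| ≤ W → g (k + j + y) = g y ∧ g (2 * (k + j) + y) = g y := by
    have hB : ∀ᶠ n in (P : Filter ℤ), n ∈ {n : ℤ | ∀ y ∈ Finset.Icc (-(W : ℤ)) W,
        half c (n + y) = g y ∧ half c (2 * n + y) = !(g y)} := by
      show ∀ᶠ n in (P : Filter ℤ), ∀ y ∈ Finset.Icc (-(W : ℤ)) W,
        half c (n + y) = g y ∧ half c (2 * n + y) = !(g y)
      rw [Finset.eventually_all]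
      intro y _
      exact (hα y).and (hβ y)
    obtain ⟨G, hG⟩ := hgood _ hB
    refine ⟨G, fun k hk => ?_⟩
    obtain ⟨j, hj0, hjG, hj⟩ := hG k hk
    refine ⟨j, hj0, hjG, fun y hy => ?_⟩
    obtain ⟨n, ⟨hn1, hn2⟩, hn3⟩ :=
      ((hj.and (hα (k + j + y))).and (hβ (2 * (k + j) + y))).exists
    obtain ⟨h1, h2⟩ := hn1 y (by rw [Finset.mem_Icc]; exact abs_le.mp hy)
    constructor
    · rw [← hn2, ← h1]; congr 1; ring
    · have h3 : half c (2 * (n + (k + j)) + y) = half c (2 * n + (2 * (k + j) + y)) := by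
        congr 1; ring
      rw [h2, hn3] at h3
      have h4 := congrArg not h3
      rw [Bool.not_not, Bool.not_not] at h4
      exact h4.symm
  obtain ⟨G, hG⟩ := hP2
  -- the two sets
  set Z : Bool → Set ℤ := fun σ => {k | ∀ y ∈ Finset.Icc (-(W : ℤ)) W,
    half c (k + y) = xor σ (g y) ∧ half c (2 * k + y) = !(xor σ (g y))} with hZ
  have hZanti : ∀ σ, Anti (Z σ) (Z (!σ)) := by
    intro σ
    have h1 : ∀ y ∈ Finset.Icc (-(W : ℤ)) W,
        Anti ({k | half c (k + y) = xor σ (g y)} ∩ {k | half c (2 * k + y) = !(xor σ (g y))})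
          ({k | half c (k + y) = xor (!σ) (g y)} ∩
            {k | half c (2 * k + y) = !(xor (!σ) (g y))}) := by
      intro y _
      refine Anti.inter ?_ ?_
      · have h2 := (anti_half hc (xor σ (g y))).shift y
        rw [show xor (!σ) (g y) = !(xor σ (g y)) by simp]
        exact h2
      · have h2 := ((anti_half hc (!(xor σ (g y)))).shift y).double
        rw [show xor (!σ) (g y) = !(xor σ (g y)) by simp]
        exact h2
    exact anti_biInter _ h1
  set T : Bool → Set ℤ := fun σ => {n | ∃ j ∈ Finset.Ico (0 : ℤ) G, n + j ∈ Z σ} ∩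
    {n | ∀ j ∈ Finset.Ico (0 : ℤ) G, n + j ∈ (Z (!σ))ᶜ} with hT
  have hTanti : ∀ σ, Anti (T σ) (T (!σ)) := by
    intro σ
    refine Anti.inter ?_ ?_
    · exact anti_biUnion (A := fun j => {n | n + j ∈ Z σ}) (A' := fun j => {n | n + j ∈ Z (!σ)})
        _ (fun j _ => (hZanti σ).shift j)
    · exact anti_biInter (A := fun j => {n | n + j ∈ (Z (!σ))ᶜ})
        (A' := fun j => {n | n + j ∈ (Z (!(!σ)))ᶜ}) _ (fun j _ => (hZanti (!σ)).compl.shift j)
  have hTdis : ∀ n σ, n ∈ T σ → n ∉ T (!σ) := by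
    rintro n σ ⟨⟨j, hj, hjZ⟩, h2⟩ ⟨⟨j', hj', hjZ'⟩, _⟩
    exact h2 j' hj' hjZ'
  refine no_runs hTdis hTanti false ?_
  intro R N
  -- approximate the limit on a long window
  set V : ℤ := 2 * (|R| + G + W) with hV
  have h1 : ∀ᶠ n in (P : Filter ℤ), ∀ v ∈ Finset.Icc (-V) V,
      half c (n + v) = g v ∧ half c (2 * n + v) = !(g v) := by
    rw [Finset.eventually_all]
    intro y _
    exact (hα y).and (hβ y)
  obtain ⟨n, hn, hnN⟩ := (h1.and (hP N)).exists
  refine ⟨n, hnN, fun i hi0 hiR => ⟨?_, ?_⟩⟩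
  · obtain ⟨j, hj0, hjG, hj⟩ := hG i hi0.le
    refine ⟨j, by rw [Finset.mem_Ico]; exact ⟨hj0, hjG⟩, ?_⟩
    intro y hy
    have hy' : |y| ≤ (W : ℤ) := by rw [Finset.mem_Icc] at hy; exact abs_le.mpr hy
    obtain ⟨h2, h3⟩ := hj y hy'
    rw [Finset.mem_Icc] at hy
    have hR := le_abs_self R
    have h4 := (hn (i + j + y) (by rw [Finset.mem_Icc]; omega)).1
    have h5 := (hn (2 * (i + j) + y) (by rw [Finset.mem_Icc]; omega)).2
    constructor
    · rw [Bool.false_xor, ← h2, ← h4]; congr 1; ring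
    · rw [Bool.false_xor, ← h3, ← h5]; congr 1; ring
  · intro j hj hjZ
    rw [Finset.mem_Ico] at hj
    refine hW (i + j) (by omega) (fun y hy => ?_)
    have hy1 := abs_le.mp hy
    obtain ⟨h2, h3⟩ := hjZ y (by rw [Finset.mem_Icc]; exact hy1)
    have hR := le_abs_self R
    have h4 := (hn (i + j + y) (by rw [Finset.mem_Icc]; omega)).1
    have h5 := (hn (2 * (i + j) + y) (by rw [Finset.mem_Icc]; omega)).2
    rw [Bool.not_false, Bool.true_xor] at h2 h3
    constructor
    · rw [← h4, ← h2]; congr 1; ring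
    · have h6 : half c (2 * (n + i + j) + y) = half c (2 * n + (2 * (i + j) + y)) := by
        congr 1; ring
      rw [h5, h3] at h6
      have h7 := congrArg not h6
      rw [Bool.not_not, Bool.not_not] at h7
      exact h7.symm

end Pool.Agent.Work.MP_ae2f77_co
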