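import Mathlib

set_option autoImplicit false

open Filter

namespace Pool.Agent.Work.MP_ae2f77_co

attribute [local instance] Ultrafilter.add Ultrafilter.addSemigroup

/-- Ultrafilters on the integers that contain every upper ray. -/
def Sinf : Set (Ultrafilter ℤ) := {P | ∀ N : ℤ, ∀ᶠ n in (P : Filter ℤ), N ≤ n}

theorem isClosed_Sinf : IsClosed Sinf := by
  have : Sinf = ⋂ N : ℤ, {P : Ultrafilter ℤ | {n : ℤ | N ≤ n} ∈ P} := by
    ext P
    simp only [Set.mem_iInter]
    rfl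
  rw [this]
  exact isClosed_iInter fun N => ultrafilter_isClosed_basic _

theorem Sinf_nonempty : Sinf.Nonempty :=
  ⟨Ultrafilter.of atTop, fun N => (Ultrafilter.of_le (atTop : Filter ℤ)) (mem_atTop N)⟩

theorem Sinf_add {p q : Ultrafilter ℤ} (hp : p ∈ Sinf) (hq : q ∈ Sinf) : p + q ∈ Sinf := by
  intro N
  rw [Ultrafilter.eventually_add]
  filter_upwards [hp 0] with m hm
  filter_upwards [hq N] with n hn
  linarith

/-- Nonempty closed left ideals. -/
def IsLI (L : Set (Ultrafilter ℤ)) : Prop :=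
  IsClosed L ∧ L.Nonempty ∧ L ⊆ Sinf ∧ ∀ p ∈ Sinf, ∀ q ∈ L, p + q ∈ L

theorem exists_min : ∃ L : Set (Ultrafilter ℤ), Minimal (fun L => IsLI L) L := by
  have h := zorn_superset_nonempty {L : Set (Ultrafilter ℤ) | IsLI L} ?_ Sinf ?_
  · obtain ⟨L, _, hL⟩ := h
    exact ⟨L, hL⟩
  · intro c hcs hc hcne
    refine ⟨⋂₀ c, ⟨isClosed_sInter fun t ht => (hcs ht).1, ?_, ?_, ?_⟩,
      fun s hs => Set.sInter_subset_of_mem hs⟩
    · convert
        @IsCompact.nonempty_iInter_of_directed_nonempty_isCompact_isClosed _ _ _ hcne.coe_sort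
          ((↑) : c → Set (Ultrafilter ℤ)) ?_ ?_ ?_ ?_
      · exact Set.sInter_eq_iInter
      · refine DirectedOn.directed_val (IsChain.directedOn hc.symm)
      exacts [fun i => (hcs i.prop).2.1, fun i => (hcs i.prop).1.isCompact,
        fun i => (hcs i.prop).1]
    · obtain ⟨t, ht⟩ := hcne
      exact (Set.sInter_subset_of_mem ht).trans (hcs ht).2.2.1
    · intro p hp q hq
      rw [Set.mem_sInter] at hq ⊢
      exact fun t ht => (hcs ht).2.2.2 p hp q (hq t ht)
  · exact ⟨isClosed_Sinf, Sinf_nonempty, subset_rfl, fun p hp q hq => Sinf_add hp hq⟩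

/-- An idempotent in a minimal left ideal, with the syndetic return property. -/
theorem exists_good : ∃ P ∈ Sinf, P + P = P ∧ ∀ B : Set ℤ, (∀ᶠ n in (P : Filter ℤ), n ∈ B) →
    ∃ G : ℕ, ∀ k : ℤ, 0 ≤ k → ∃ j : ℤ, 0 ≤ j ∧ j < G ∧
      ∀ᶠ n in (P : Filter ℤ), n + (k + j) ∈ B := by
  obtain ⟨L, hL⟩ := exists_min
  have hLI : IsLI L := hL.prop
  obtain ⟨P, hPL, hPP⟩ := exists_idempotent_in_compact_add_subsemigroup
    (M := Ultrafilter ℤ) Ultrafilter.continuous_add_left L hLI.2.1 hLI.1.isCompact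
    (fun x hx y hy => hLI.2.2.2 x (hLI.2.2.1 hx) y hy)
  refine ⟨P, hLI.2.2.1 hPL, hPP, ?_⟩
  intro B hB
  by_contra hcon
  push Not at hcon
  choose k hk0 hk using hcon
  set r : Ultrafilter ℤ := (hyperfilter ℕ).map k with hr
  have hr0 : ∀ᶠ x in (r : Filter ℤ), 0 ≤ x := by
    rw [hr, Ultrafilter.coe_map, eventually_map]
    exact Eventually.of_forall hk0
  have hrj : ∀ j : ℤ, 0 ≤ j → ∀ᶠ x in (r : Filter ℤ), ¬ ∀ᶠ n in (P : Filter ℤ), n + (x + j) ∈ B := by
    intro j hj
    rw [hr, Ultrafilter.coe_map, eventually_map]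
    have : ∀ᶠ G : ℕ in (hyperfilter ℕ : Filter ℕ), j < G := by
      have h1 : ∀ᶠ G : ℕ in (atTop : Filter ℕ), j < G := by
        filter_upwards [eventually_gt_atTop j.toNat] with G hG
        omega
      exact Nat.hyperfilter_le_atTop h1
    filter_upwards [this] with G hG
    have h2 := hk G j hj hG
    intro h3
    obtain ⟨n, hn1, hn2⟩ := (h2.and h3).exists
    exact hn1 hn2
  set L' : Set (Ultrafilter ℤ) := (fun t => t + (r + P)) '' Sinf with hL'
  have hsub : L' ⊆ L := by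
    rintro _ ⟨t, ht, rfl⟩
    show t + (r + P) ∈ L
    rw [← add_assoc]
    refine hLI.2.2.2 _ ?_ _ hPL
    intro N
    rw [Ultrafilter.eventually_add]
    filter_upwards [ht N] with m hm
    filter_upwards [hr0] with n hn
    linarith
  have hL'I : IsLI L' := by
    refine ⟨?_, ?_, hsub.trans hLI.2.2.1, ?_⟩
    · exact (isClosed_Sinf.isCompact.image (Ultrafilter.continuous_add_left (r + P))).isClosed
    · exact Sinf_nonempty.image _
    · rintro p hp _ ⟨t, ht, rfl⟩
      exact ⟨p + t, Sinf_add hp ht, by show p + t + (r + P) = p + (t + (r + P)); rw [add_assoc]⟩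
  have hPL' : P ∈ L' := (hL.le_of_le hL'I hsub) hPL
  obtain ⟨t, ht, htP⟩ := hPL'
  have h1 : ∀ᶠ n in ((t + (r + P) : Ultrafilter ℤ) : Filter ℤ), n ∈ B := by
    have : t + (r + P) = P := htP
    rw [this]; exact hB
  rw [Ultrafilter.eventually_add] at h1
  obtain ⟨j, hj1, hj0⟩ := (h1.and (ht 0)).exists
  rw [Ultrafilter.eventually_add] at hj1
  obtain ⟨x, hx1, hx2⟩ := (hj1.and (hrj j hj0)).exists
  apply hx2
  filter_upwards [hx1] with n hn
  have : n + (x + j) = j + (x + n) := by ring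
  rw [this]; exact hn

end Pool.Agent.Work.MP_ae2f77_co
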