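import Pool.Agent.Work.MP_ae2f77_co.Ideal

set_option autoImplicit false

open Filter

namespace Pool.Agent.Work.MP_ae2f77_co

attribute [local instance] Ultrafilter.add Ultrafilter.addSemigroup

/-- A counterexample to the statement that some infinite set has all pairwise sums of one
colour. -/
def Bad (c : ℕ → Bool) : Prop := ∀ X : Set ℕ, X.Infinite →
  ∃ x ∈ X, ∃ y ∈ X, ∃ z ∈ X, ∃ w ∈ X, c (x + y) ≠ c (z + w)

/-- The colouring of half of the even numbers, as a function on the integers. -/
def half (c : ℕ → Bool) (n : ℤ) : Bool := c (2 * n).toNat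

theorem lawU {c : ℕ → Bool} (hc : Bad c) {P : Ultrafilter ℤ} (hP : P ∈ Sinf) (m : ℤ) (κ : Bool)
    (hD : ∀ᶠ n in (P : Filter ℤ), half c (2 * n + m) = κ)
    (hE : ∀ᶠ n in (P : Filter ℤ), ∀ᶠ n' in (P : Filter ℤ), half c (n + n' + m) = κ) : False := by
  obtain ⟨f, hf, hr⟩ := exists_seq_of_forall_finset_exists
    (fun x : ℤ => half c (2 * x + m) = κ ∧ (∀ᶠ n' in (P : Filter ℤ), half c (x + n' + m) = κ) ∧
      |m| + 1 ≤ x)
    (fun x y : ℤ => x < y ∧ half c (x + y + m) = κ) (by
      intro s hs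
      have h1 : ∀ᶠ y in (P : Filter ℤ), ∀ x ∈ s, x < y ∧ half c (x + y + m) = κ := by
        rw [Finset.eventually_all]
        intro x hx
        filter_upwards [hP (x + 1), (hs x hx).2.1] with y hy1 hy2
        exact ⟨by omega, hy2⟩
      obtain ⟨y, ⟨⟨hy1, hy2⟩, hy3⟩, hy4⟩ := (((hD.and hE).and (hP (|m| + 1))).and h1).exists
      exact ⟨y, ⟨hy1, hy2, hy3⟩, hy4⟩)
  have hpos : ∀ n, 0 ≤ 2 * f n + m := by
    intro n
    have h1 := (hf n).2.2
    have h2 := neg_abs_le m
    have h3 := abs_nonneg m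
    linarith
  have hval : ∀ i j, c ((2 * f i + m).toNat + (2 * f j + m).toNat) = κ := by
    intro i j
    have h1 : half c (f i + f j + m) = κ := by
      rcases lt_trichotomy i j with h | h | h
      · exact (hr i j h).2
      · subst h
        have := (hf i).1
        rwa [two_mul] at this
      · have := (hr j i h).2
        rwa [add_comm (f j) (f i)] at this
    unfold half at h1
    have h2 : (2 * f i + m).toNat + (2 * f j + m).toNat = (2 * (f i + f j + m)).toNat := by
      have := hpos i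
      have := hpos j
      omega
    rw [h2]; exact h1
  have hinj : Function.Injective (fun n : ℕ => (2 * f n + m).toNat) := by
    intro i j hij
    simp only at hij
    have h1 := hpos i
    have h2 := hpos j
    rcases lt_trichotomy i j with h | h | h
    · have := (hr i j h).1
      omega
    · exact h
    · have := (hr j i h).1
      omega
  obtain ⟨x, ⟨i, rfl⟩, y, ⟨j, rfl⟩, z, ⟨k, rfl⟩, w, ⟨l, rfl⟩, hne⟩ :=
    hc _ (Set.infinite_range_of_injective hinj)
  apply hne
  simp only
  rw [hval, hval]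

theorem not_eq_iff_bnot (x y : Bool) : ¬ x = y ↔ x = !y := by
  cases x <;> cases y <;> simp

/-- Opposite behaviour of two sets at doubled points and at sums. -/
def Anti (A A' : Set ℤ) : Prop := ∀ P ∈ Sinf, ∀ m : ℤ,
  (∀ᶠ n in (P : Filter ℤ), 2 * n + m ∈ A) ↔
    ∀ᶠ n in (P : Filter ℤ), ∀ᶠ n' in (P : Filter ℤ), n + n' + m ∈ A'

theorem anti_half {c : ℕ → Bool} (hc : Bad c) (κ : Bool) :
    Anti {n | half c n = κ} {n | half c n = !κ} := by
  intro P hP m
  constructor
  · intro h
    by_contra h2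
    rw [← Ultrafilter.eventually_not] at h2
    refine lawU hc hP m κ h ?_
    filter_upwards [h2] with n hn
    rw [← Ultrafilter.eventually_not] at hn
    filter_upwards [hn] with n' hn'
    have h3 : ¬ half c (n + n' + m) = !κ := hn'
    rw [not_eq_iff_bnot, Bool.not_not] at h3
    exact h3
  · intro h
    by_contra h2
    rw [← Ultrafilter.eventually_not] at h2
    refine lawU hc hP m (!κ) ?_ h
    filter_upwards [h2] with n hn
    have h3 : ¬ half c (2 * n + m) = κ := hn
    rwa [not_eq_iff_bnot] at h3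

theorem Anti.compl {A A' : Set ℤ} (h : Anti A A') : Anti Aᶜ A'ᶜ := by
  intro P hP m
  have h1 := not_congr (h P hP m)
  rw [← Ultrafilter.eventually_not, ← Ultrafilter.eventually_not] at h1
  simp only [← Ultrafilter.eventually_not] at h1
  exact h1

theorem Anti.inter {A A' B B' : Set ℤ} (h : Anti A A') (h' : Anti B B') :
    Anti (A ∩ B) (A' ∩ B') := by
  intro P hP m
  simp only [Set.mem_inter_iff, eventually_and]
  exact and_congr (h P hP m) (h' P hP m)

theorem anti_univ : Anti Set.univ Set.univ := by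
  intro P hP m
  simp

theorem anti_empty : Anti ∅ ∅ := by
  intro P hP m
  simp

theorem anti_biInter {ι : Type} (s : Finset ι) {A A' : ι → Set ℤ}
    (h : ∀ i ∈ s, Anti (A i) (A' i)) : Anti {n | ∀ i ∈ s, n ∈ A i} {n | ∀ i ∈ s, n ∈ A' i} := by
  classical
  induction s using Finset.induction_on with
  | empty => simpa using anti_univ
  | insert i s hi ih =>
    have h1 := (h i (Finset.mem_insert_self i s)).inter
      (ih fun j hj => h j (Finset.mem_insert_of_mem hj))
    have e1 : ∀ B : ι → Set ℤ, {n | ∀ j ∈ insert i s, n ∈ B j} =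
        B i ∩ {n | ∀ j ∈ s, n ∈ B j} := by
      intro B
      ext n
      exact Finset.forall_mem_insert _ _ _
    rw [e1, e1]
    exact h1

theorem anti_biUnion {ι : Type} (s : Finset ι) {A A' : ι → Set ℤ}
    (h : ∀ i ∈ s, Anti (A i) (A' i)) : Anti {n | ∃ i ∈ s, n ∈ A i} {n | ∃ i ∈ s, n ∈ A' i} := by
  have h1 := (anti_biInter s (A := fun i => (A i)ᶜ) (A' := fun i => (A' i)ᶜ)
    (fun i hi => (h i hi).compl)).compl
  have e1 : ∀ B : ι → Set ℤ, {n | ∀ i ∈ s, n ∈ (B i)ᶜ}ᶜ = {n | ∃ i ∈ s, n ∈ B i} := by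
    intro B
    ext n
    constructor
    · intro hn
      by_contra h2
      apply hn
      intro i hi hni
      exact h2 ⟨i, hi, hni⟩
    · rintro ⟨i, hi, hni⟩ h2
      exact h2 i hi hni
  rw [e1, e1] at h1
  exact h1

theorem Anti.shift {A A' : Set ℤ} (h : Anti A A') (y : ℤ) :
    Anti {n | n + y ∈ A} {n | n + y ∈ A'} := by
  intro P hP m
  have h1 := h P hP (m + y)
  simp only [← add_assoc] at h1
  exact h1

theorem Anti.double {A A' : Set ℤ} (h : Anti A A') :
    Anti {n | 2 * n ∈ A} {n | 2 * n ∈ A'} := by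
  intro P hP m
  have hQ : P.map (fun n : ℤ => 2 * n) ∈ Sinf := by
    intro N
    rw [Ultrafilter.coe_map, eventually_map]
    filter_upwards [hP |N|] with n hn
    have := le_abs_self N
    have := abs_nonneg N
    linarith
  have h1 := h _ hQ (2 * m)
  simp only [Ultrafilter.coe_map, eventually_map] at h1
  have e1 : ∀ n : ℤ, 2 * (2 * n + m) = 2 * (2 * n) + 2 * m := fun n => by ring
  have e2 : ∀ n n' : ℤ, 2 * (n + n' + m) = 2 * n + 2 * n' + 2 * m := fun n n' => by ring
  have h2 : (∀ᶠ n in (P : Filter ℤ), 2 * (2 * n + m) ∈ A) ↔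
      ∀ᶠ n in (P : Filter ℤ), ∀ᶠ n' in (P : Filter ℤ), 2 * (n + n' + m) ∈ A' := by
    simp only [e1, e2]
    exact h1
  exact h2

end Pool.Agent.Work.MP_ae2f77_co
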