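import Pool.Agent.Work.MP_ae2f77_co.Law

set_option autoImplicit false

open Filter

namespace Pool.Agent.Work.MP_ae2f77_co

attribute [local instance] Ultrafilter.add Ultrafilter.addSemigroup

/-- Along an ultrafilter, a function with values in a finite type is constant. -/
theorem exists_const {α β : Type*} [Finite β] (H : Ultrafilter α) (f : α → β) :
    ∃ b, ∀ᶠ x in (H : Filter α), f x = b := by
  have h : ∀ᶠ x in (H : Filter α), ∃ b, f x = b := Eventually.of_forall fun x => ⟨f x, rfl⟩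
  rw [Ultrafilter.eventually_exists_iff] at h
  exact h

theorem hyper_gt (z : ℤ) : ∀ᶠ k : ℕ in (hyperfilter ℕ : Filter ℕ), z < k := by
  have h1 : ∀ᶠ G : ℕ in (atTop : Filter ℕ), z < G := by
    filter_upwards [eventually_gt_atTop z.toNat] with G hG
    omega
  exact Nat.hyperfilter_le_atTop h1

theorem run_step {T : Bool → Set ℤ} (hanti : ∀ σ, Anti (T σ) (T (!σ))) :
    ∃ L : ℤ, 2 ≤ L ∧ ∀ σ, ∀ n, L ≤ n → (∀ i, 0 < i → i ≤ L → n + i ∈ T σ) →
      ∀ m : ℤ, |m| ≤ 1 → 2 * n + m ∈ T (!σ) := by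
  by_contra hcon
  have h0 : ∀ k : ℕ, ∃ σ : Bool, ∃ n : ℤ, (k : ℤ) + 2 ≤ n ∧
      (∀ i, 0 < i → i ≤ (k : ℤ) + 2 → n + i ∈ T σ) ∧ ∃ m : ℤ, |m| ≤ 1 ∧ 2 * n + m ∉ T (!σ) := by
    intro k
    by_contra h1
    apply hcon
    refine ⟨k + 2, by omega, ?_⟩
    intro σ n hn hi m hm
    by_contra h2
    exact h1 ⟨σ, n, hn, hi, m, hm, h2⟩
  choose σ n hn hr m hm hnot using h0
  obtain ⟨s, hs⟩ := exists_const (hyperfilter ℕ) σ
  have hm3 : ∀ᶠ k in (hyperfilter ℕ : Filter ℕ), m k = -1 ∨ m k = 0 ∨ m k = 1 := by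
    refine Eventually.of_forall fun k => ?_
    have := abs_le.mp (hm k)
    omega
  have hm0 : ∃ m0 : ℤ, |m0| ≤ 1 ∧ ∀ᶠ k in (hyperfilter ℕ : Filter ℕ), m k = m0 := by
    rw [Ultrafilter.eventually_or, Ultrafilter.eventually_or] at hm3
    rcases hm3 with h | h | h
    · exact ⟨-1, by simp, h⟩
    · exact ⟨0, by simp, h⟩
    · exact ⟨1, by simp, h⟩
  obtain ⟨m0, hm01, hm0⟩ := hm0
  have hm01' := abs_le.mp hm01
  have hP : (hyperfilter ℕ).map n ∈ Sinf := by
    intro N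
    rw [Ultrafilter.coe_map, eventually_map]
    filter_upwards [hyper_gt N] with k hk
    have := hn k
    omega
  have hE : ∀ᶠ x in (((hyperfilter ℕ).map n : Ultrafilter ℤ) : Filter ℤ),
      ∀ᶠ x' in (((hyperfilter ℕ).map n : Ultrafilter ℤ) : Filter ℤ),
        x + x' + m0 ∈ T (!(!s)) := by
    rw [Ultrafilter.coe_map, eventually_map]
    refine Eventually.of_forall fun k => ?_
    rw [eventually_map]
    filter_upwards [hs, hyper_gt (n k + m0)] with k' hk' hk2
    rw [Bool.not_not, ← hk']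
    have h1 := hr k' (n k + m0) (by have := hn k; omega) (by omega)
    have h2 : n k + n k' + m0 = n k' + (n k + m0) := by ring
    rw [h2]
    exact h1
  have hD := (hanti (!s) _ hP m0).mpr hE
  rw [Ultrafilter.coe_map, eventually_map] at hD
  obtain ⟨k, ⟨hk1, hk2⟩, hk3⟩ := ((hD.and hm0).and hs).exists
  apply hnot k
  rw [hk2, hk3]
  exact hk1

theorem no_runs {T : Bool → Set ℤ} (hdis : ∀ n σ, n ∈ T σ → n ∉ T (!σ))
    (hanti : ∀ σ, Anti (T σ) (T (!σ))) (σ0 : Bool)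
    (hrun : ∀ R N : ℤ, ∃ n, N ≤ n ∧ ∀ i, 0 < i → i ≤ R → n + i ∈ T σ0) : False := by
  obtain ⟨L, hL2, hL⟩ := run_step hanti
  -- doubling of runs
  have hdbl : ∀ σ β ε, L ≤ β → β + L ≤ ε → (∀ z, β < z → z ≤ ε → z ∈ T σ) →
      ∀ z, 2 * β - 1 ≤ z → z ≤ 2 * (ε - L) + 1 → z ∈ T (!σ) := by
    intro σ β ε hβ hε hz z hz1 hz2
    obtain ⟨n, m, hn1, hn2, hm, rfl⟩ : ∃ n m : ℤ, β ≤ n ∧ n ≤ ε - L ∧ |m| ≤ 1 ∧
        z = 2 * n + m := by
      by_cases h1 : z ≤ 2 * (ε - L)
      · by_cases h2 : z < 2 * β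
        · exact ⟨β, -1, le_rfl, by omega, by simp, by omega⟩
        · refine ⟨z / 2, z % 2, by omega, by omega, ?_, by omega⟩
          rw [abs_le]; omega
      · exact ⟨ε - L, 1, by omega, le_rfl, by simp, by omega⟩
    exact hL σ n (by omega) (fun i hi1 hi2 => hz _ (by omega) (by omega)) m hm
  obtain ⟨a, ha1, ha2⟩ := hrun (2 * L + 1) (L + 5)
  obtain ⟨p, hp0, hp⟩ : ∃ p : ℕ → ℤ, p 0 = a + 1 ∧ ∀ s, p (s + 1) = 2 * p s - 3 :=
    ⟨fun s => Nat.rec (a + 1) (fun _ x => 2 * x - 3) s, rfl, fun _ => rfl⟩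
  obtain ⟨q, hq0, hq⟩ : ∃ q : ℕ → ℤ, q 0 = a + (2 * L + 1) ∧
      ∀ s, q (s + 1) = 2 * q s - 2 * L + 1 :=
    ⟨fun s => Nat.rec (a + (2 * L + 1)) (fun _ x => 2 * x - 2 * L + 1) s, rfl, fun _ => rfl⟩
  obtain ⟨σ, hσ0, hσ⟩ : ∃ σ : ℕ → Bool, σ 0 = σ0 ∧ ∀ s, σ (s + 1) = !σ s :=
    ⟨fun s => Nat.rec σ0 (fun _ x => !x) s, rfl, fun _ => rfl⟩
  have hpL : ∀ s, L + 5 + s ≤ p s := by
    intro s
    induction s with
    | zero => rw [hp0]; push_cast; omega
    | succ s ih => rw [hp]; push_cast; omega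
  have hqp : ∀ s, 2 * L + s ≤ q s - p s := by
    intro s
    induction s with
    | zero => rw [hp0, hq0]; push_cast; omega
    | succ s ih => rw [hp, hq]; push_cast; omega
  have hJ : ∀ s, ∀ z, p s ≤ z → z ≤ q s → z ∈ T (σ s) := by
    intro s
    induction s with
    | zero =>
      intro z hz1 hz2
      rw [hσ0]
      have := ha2 (z - a) (by rw [hp0] at hz1; omega) (by rw [hq0] at hz2; omega)
      rwa [show a + (z - a) = z by ring] at this
    | succ s ih =>
      intro z hz1 hz2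
      rw [hσ]
      rw [hp] at hz1
      rw [hq] at hz2
      have h1 := hpL s
      have h2 := hqp s
      exact hdbl (σ s) (p s - 1) (q s) (by omega) (by omega)
        (fun z hz1 hz2 => ih z (by omega) (by omega)) z (by omega) (by omega)
  have hqlt : ∀ s, q s < p (s + 1) := by
    intro s
    by_contra hcon
    have h1 := hpL s
    have h2 := hqp (s + 1)
    have h3 := hJ s (p (s + 1)) (by rw [hp]; omega) (by omega)
    have h4 := hJ (s + 1) (p (s + 1)) le_rfl (by omega)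
    rw [hσ] at h4
    exact hdis _ _ h3 h4
  -- the last full window of the sign of the run before the next run
  have heps : ∀ s, ∃ e : ℤ, (e < p (s + 1) ∧ ∀ z, e - 2 * L < z → z ≤ e → z ∈ T (σ s)) ∧
      ∀ e' : ℤ, (e' < p (s + 1) ∧ ∀ z, e' - 2 * L < z → z ≤ e' → z ∈ T (σ s)) → e' ≤ e := by
    intro s
    refine Int.exists_greatest_of_bdd (P := fun e => e < p (s + 1) ∧
      ∀ z, e - 2 * L < z → z ≤ e → z ∈ T (σ s)) ⟨p (s + 1), fun z hz => hz.1.le⟩
      ⟨q s, hqlt s, fun z hz1 hz2 => hJ s z ?_ hz2⟩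
    have := hqp s
    omega
  choose e he hemax using heps
  have heq : ∀ s, q s ≤ e s := by
    intro s
    refine hemax s (q s) ⟨hqlt s, fun z hz1 hz2 => hJ s z ?_ hz2⟩
    have := hqp s
    omega
  have hstep : ∀ s, 2 * e s - 2 * L + 1 ≤ e (s + 1) := by
    intro s
    have h1 := heq s
    have h2 := hqp s
    have h3 := hpL s
    refine hemax (s + 1) _ ⟨?_, ?_⟩
    · rw [hp]
      have := (he s).1
      omega
    · intro z hz1 hz2
      rw [hσ]
      exact hdbl (σ s) (e s - 2 * L) (e s) (by omega) (by omega) (he s).2 z (by omega) (by omega)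
  -- pass to an ultrafilter
  set x : ℕ → ℤ := fun s => e (s + 1) / 2 with hx
  have hxlow : ∀ s : ℕ, (s : ℤ) ≤ x s := by
    intro s
    have h1 := heq (s + 1)
    have h2 := hqp (s + 1)
    have h3 := hpL (s + 1)
    have h4 := hp s
    have h5 := hpL s
    simp only [hx]
    omega
  obtain ⟨t, ht⟩ := exists_const (hyperfilter ℕ) (fun s => σ (s + 1))
  have hb2 : ∀ᶠ s in (hyperfilter ℕ : Filter ℕ), e (s + 1) % 2 = 0 ∨ e (s + 1) % 2 = 1 := by
    refine Eventually.of_forall fun k => ?_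
    omega
  have hb0 : ∃ b : ℤ, 0 ≤ b ∧ b ≤ 1 ∧
      ∀ᶠ s in (hyperfilter ℕ : Filter ℕ), e (s + 1) % 2 = b := by
    rw [Ultrafilter.eventually_or] at hb2
    rcases hb2 with h | h
    · exact ⟨0, by simp, by simp, h⟩
    · exact ⟨1, by simp, by simp, h⟩
  obtain ⟨b, hb0, hb1, hb⟩ := hb0
  have hP : (hyperfilter ℕ).map x ∈ Sinf := by
    intro N
    rw [Ultrafilter.coe_map, eventually_map]
    filter_upwards [hyper_gt N] with k hk
    have := hxlow k
    omega
  have hE : ∀ m ∈ Finset.Ioc (b - 2 * L) b,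
      ∀ᶠ s in (hyperfilter ℕ : Filter ℕ), ∀ᶠ s' in (hyperfilter ℕ : Filter ℕ),
        x s + x s' + m ∈ T (!t) := by
    intro m hm
    rw [Finset.mem_Ioc] at hm
    have h1 := (hanti t _ hP m).mp (by
      rw [Ultrafilter.coe_map, eventually_map]
      filter_upwards [ht, hb] with s hs1 hs2
      rw [← hs1]
      simp only [hx]
      exact (he (s + 1)).2 _ (by omega) (by omega))
    rw [Ultrafilter.coe_map, eventually_map] at h1
    filter_upwards [h1] with s hs
    rw [eventually_map] at hs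
    exact hs
  rw [← Finset.eventually_all] at hE
  simp only [← Finset.eventually_all] at hE
  obtain ⟨s, hs, hbs⟩ := (hE.and hb).exists
  obtain ⟨s', ⟨⟨hs1, hs2⟩, hs3⟩, hs4⟩ := (((hs.and ht).and hb).and (hyper_gt (x s))).exists
  -- the window below the run number s' + 1
  have hx1 : x s' = e (s' + 1) / 2 := rfl
  have hx2 : x s = e (s + 1) / 2 := rfl
  have hw : ∀ z, x s + x s' + b - 2 * L < z → z ≤ x s + x s' + b → z ∈ T (!t) := by
    intro z hz1 hz2
    have h1 := hs1 (z - x s - x s') (by rw [Finset.mem_Ioc]; omega)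
    rwa [show x s + x s' + (z - x s - x s') = z by ring] at h1
  have hts : (!t) = σ s' := by
    have h1 : σ (s' + 1) = t := hs2
    rw [← h1, hσ, Bool.not_not]
  have hwq : x s + x s' + b ≤ q (s' + 1) := by
    have h1 := (he (s' + 1)).1
    have h2 := hp (s' + 1)
    have h3 := hqp (s' + 1)
    omega
  have hwp : x s + x s' + b < p (s' + 1) := by
    by_contra h1
    have h2 := hJ (s' + 1) (x s + x s' + b) (by omega) hwq
    have h3 := hw _ (by omega) le_rfl
    have h4 : σ (s' + 1) = t := hs2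
    rw [h4] at h2
    exact hdis _ _ h2 h3
  have h5 := hemax s' _ ⟨hwp, by rw [← hts]; exact hw⟩
  have h6 := hstep s'
  have h7 := heq (s + 1)
  have h8 := hqp (s + 1)
  have h9 := hpL (s + 1)
  omega

end Pool.Agent.Work.MP_ae2f77_co
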